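import Pool.Agent.W956.PPM.Main

/-!
# Treewidth and hardness of pattern-restricted permutation pattern matching

The question MP_e7408b_lc asks whether `C`-Pattern PPM is `NP`-hard for every permutation class `C`
such that the treewidth of the graphs `G_π`, `π ∈ C`, is unbounded.  This is so if and only if
`P = NP`.  If `P ≠ NP`, the classes of permutations all of whose patterns `σ` have grid-width at
most `h |σ|`, for a suitable slowly growing function `h`, are counterexamples
(`Pool.Agent.H593R3.PPM.exists_class`); their treewidth is unbounded because a tree decomposition
of `G_π` of width `k` gives a grid tree of `π` of width at most `3 k + 7`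
(`Pool.Agent.W956.PPM.gw_le_of_tree`).
-/

namespace Pool.Agent.Results.MP_e7408b_lc.HardForAllIffPEqNP

open Pool.Agent.NPC Pool.Agent.H593R3.PPM Pool.Agent.W956.PPM

/-- The following are equivalent: `P = NP`; for every permutation class `C` of unbounded treewidth
`C`-Pattern PPM is `NP`-hard as a problem whose instances are pairs of a member of `C` and a
permutation; for every such class `C`-Pattern PPM is `NP`-hard as a language. -/
theorem result : List.TFAE [
    ∀ L : Set (List Bool), InNP L → InP L,
    ∀ C : Set (List ℕ), PermClass C → UnboundedTW C → HardOnInstances C,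
    ∀ C : Set (List ℕ), PermClass C → UnboundedTW C → NPHardP (PatternPPM C)] := by
  tfae_have 1 → 2 := fun h C hC hU => W956.PPM.hard_of_eq h hC hU
  tfae_have 2 → 3 := fun h C hC hU => (h C hC hU).npHardP
  tfae_have 3 → 1 := by
    intro h L hL
    by_contra hL'
    obtain ⟨C, hC, hU, hnot⟩ := exists_class hL hL'
    exact hnot (h C hC (unboundedTW_of_gw hC hU))
  tfae_finish

end Pool.Agent.Results.MP_e7408b_lc.HardForAllIffPEqNP
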